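import Mathlib

/-!
# The double quotient `K₁ \ C^{≤ μ} / K₁` is not representable by a scheme

Let `G = GL₂` over any field `k` and `μ = (1, -1)`.  We show that the fpqc sheaf quotient
`K₁ \ C^{≤ μ} / K₁` is not represented by any `k`-scheme (normal or not).

The reason: let `g = [[1, s/t], [0, 1]]` and `h = [[1, s/t + u], [0, 1]]`, two points of `C^{≤ μ}`
with values in `k[u, s]`.  Where `s` is invertible, `h = d g d⁻¹` with
`d = diag (1 + u t / s, 1)` in `K₁`.  So the two morphisms from the plane to the quotient `Y`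
given by `g` and `h` agree for `s ≠ 0`, and they agree at the origin `s = u = 0`.  If `Y` is a scheme,
then they agree in a neighbourhood of the origin, in particular at the generic point of the line
`s = 0`.  But there `g = 1` and `h = [[1, u], [0, 1]]` are not even equivalent modulo `t`.
-/

set_option autoImplicit false

universe u

open CategoryTheory AlgebraicGeometry

noncomputable section

namespace Pool.Agent.Results.MP_a35d21_ag.NotRepresentable

/-- The ring homomorphism `R((t)) → S((t))` induced by a ring homomorphism `R → S`. -/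
def laurentMap {R S : Type*} [CommRing R] [CommRing S] (f : R →+* S) :
    LaurentSeries R →+* LaurentSeries S where
  toFun x := x.map f
  map_one' := HahnSeries.map_one f.toMonoidWithZeroHom
  map_mul' _ _ := HahnSeries.map_mul (f : R →ₙ+* S)
  map_zero' := HahnSeries.map_zero (f.toMonoidWithZeroHom : ZeroHom R S)
  map_add' _ _ := HahnSeries.map_add (f : R →+ S)

/-- The loop group of `GL_n`: `LG(R) = GL_n(R((t)))`. -/
abbrev LG (n : ℕ) (R : Type*) [CommRing R] : Type _ := GL (Fin n) (LaurentSeries R)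

/-- The functoriality of the loop group in the ring `R`. -/
def LG.map {n : ℕ} {R S : Type*} [CommRing R] [CommRing S] (f : R →+* S) : LG n R →* LG n S :=
  Matrix.GeneralLinearGroup.map (laurentMap f)

/-- The inclusion of the positive loop group `L⁺G(R) = GL_n(R[[t]])` in the loop group. -/
def incl (n : ℕ) (R : Type*) [CommRing R] : GL (Fin n) (PowerSeries R) →* LG n R :=
  Matrix.GeneralLinearGroup.map (HahnSeries.ofPowerSeries ℤ R)

/-- The first congruence subgroup `K₁(R)`: the kernel of `GL_n(R[[t]]) → GL_n(R)`, `t ↦ 0`,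
as a subgroup of `LG(R)`. -/
def K1 (n : ℕ) (R : Type*) [CommRing R] : Subgroup (LG n R) :=
  (Matrix.GeneralLinearGroup.map (n := Fin n) (PowerSeries.constantCoeff (R := R))).ker.map
    (incl n R)

/-- The element `t ^ μ = diag (t ^ μ₁, …, t ^ μₙ)` of `LG(R)`. -/
def tpow {n : ℕ} (μ : Fin n → ℤ) (R : Type*) [CommRing R] : LG n R where
  val := Matrix.diagonal fun i => HahnSeries.single (μ i) 1
  inv := Matrix.diagonal fun i => HahnSeries.single (-μ i) 1
  val_inv := by
    rw [Matrix.diagonal_mul_diagonal, ← Matrix.diagonal_one]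
    congr 1
    ext1 i
    rw [HahnSeries.single_mul_single, mul_one, add_neg_cancel]
    rfl
  inv_val := by
    rw [Matrix.diagonal_mul_diagonal, ← Matrix.diagonal_one]
    congr 1
    ext1 i
    rw [HahnSeries.single_mul_single, mul_one, neg_add_cancel]
    rfl

/-- The points of the Cartan stratum `C^μ = L⁺G t^μ L⁺G` over a field `K`. -/
def stratum {n : ℕ} (μ : Fin n → ℤ) (K : Type*) [Field K] : Set (LG n K) :=
  {g | ∃ a b : GL (Fin n) (PowerSeries K), g = incl n K a * tpow μ K * incl n K b}

/-- The coordinates on the loop group: the value of the coordinate `(ε, i, j, m)` at `g` is the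
coefficient of `t ^ m` in the entry `(i, j)` of `g` (if `ε = true`) or of `g⁻¹` (if `ε = false`). -/
def coord {n : ℕ} {R : Type*} [CommRing R] (g : LG n R) : Bool × Fin n × Fin n × ℤ → R
  | (true, i, j, m) => ((g : Matrix (Fin n) (Fin n) (LaurentSeries R)) i j).coeff m
  | (false, i, j, m) => ((g⁻¹ : LG n R) i j).coeff m

/-- The closure `C^{≤ μ}` of the Cartan stratum `C^μ` in the loop group of `GL_n` over `k` (with the
reduced structure), as a functor on `k`-algebras: the elements of `LG(R)` at which all polynomials in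
the coordinates with coefficients in `k` vanish which vanish on the stratum, that is at all of its
points over all fields `K` containing `k`. -/
def cartanClosure (k : Type u) [Field k] {n : ℕ} (μ : Fin n → ℤ) (R : Type u) [CommRing R]
    [Algebra k R] : Set (LG n R) :=
  {g | ∀ P : MvPolynomial (Bool × Fin n × Fin n × ℤ) k,
    (∀ (K : Type u) [Field K] [Algebra k K], ∀ h ∈ stratum μ K,
      MvPolynomial.aeval (coord h) P = 0) → MvPolynomial.aeval (coord g) P = 0}

/-- The `R`-points of the `k`-scheme `p : Y ⟶ Spec k`. -/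
def Pt {k : Type u} [Field k] {Y : Scheme.{u}} (p : Y ⟶ Spec (.of k)) (R : Type u) [CommRing R]
    [Algebra k R] : Type u :=
  {y : Spec (.of R) ⟶ Y // y ≫ p = Spec.map (CommRingCat.ofHom (algebraMap k R))}

/-- The functoriality of the `R`-points of a `k`-scheme in the `k`-algebra `R`. -/
def Pt.map {k : Type u} [Field k] {Y : Scheme.{u}} {p : Y ⟶ Spec (.of k)} {R S : Type u}
    [CommRing R] [Algebra k R] [CommRing S] [Algebra k S] (f : R →ₐ[k] S) (y : Pt p R) : Pt p S :=
  ⟨Spec.map (CommRingCat.ofHom f.toRingHom) ≫ y.1, by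
    rw [Category.assoc, y.2, ← Spec.map_comp, ← CommRingCat.ofHom_comp]
    congr 2
    exact f.comp_algebraMap⟩

/-- The `k`-scheme `p : Y ⟶ Spec k`, with the morphism of functors `q` from `C^{≤ μ}` to the functor
of points of `Y`, is the fpqc sheaf quotient `K₁ \ C^{≤ μ} / K₁`:
* `q` is natural in the `k`-algebra `R`;
* two points of `C^{≤ μ}(R)` have the same image in `Y(R)` if and only if they are in the same orbit
  of `K₁(S) × K₁(S)` for some faithfully flat `R → S`;
* every point in `Y(R)` is the image of a point of `C^{≤ μ}(S)` for some faithfully flat `R → S`. -/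
structure IsSheafQuotient {k : Type u} [Field k] {n : ℕ} (μ : Fin n → ℤ) {Y : Scheme.{u}}
    (p : Y ⟶ Spec (.of k))
    (q : ∀ (R : Type u) [CommRing R] [Algebra k R], cartanClosure k μ R → Pt p R) : Prop where
  natural : ∀ (R S : Type u) [CommRing R] [Algebra k R] [CommRing S] [Algebra k S] (f : R →ₐ[k] S)
    (c : cartanClosure k μ R) (c' : cartanClosure k μ S), c'.1 = LG.map f.toRingHom c.1 →
      q S c' = Pt.map f (q R c)
  eq_iff : ∀ (R : Type u) [CommRing R] [Algebra k R] (c c' : cartanClosure k μ R),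
    q R c = q R c' ↔ ∃ (S : Type u) (_ : CommRing S) (_ : Algebra k S) (f : R →ₐ[k] S),
      f.toRingHom.FaithfullyFlat ∧ ∃ a ∈ K1 n S, ∃ b ∈ K1 n S,
        LG.map f.toRingHom c'.1 = a * LG.map f.toRingHom c.1 * b
  surjective : ∀ (R : Type u) [CommRing R] [Algebra k R] (y : Pt p R),
    ∃ (S : Type u) (_ : CommRing S) (_ : Algebra k S) (f : R →ₐ[k] S),
      f.toRingHom.FaithfullyFlat ∧ ∃ c : cartanClosure k μ S, q S c = Pt.map f y

/-! ### Functoriality -/

section basic

variable {n : ℕ} {R S T : Type*} [CommRing R] [CommRing S] [CommRing T]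

lemma laurentMap_coeff (f : R →+* S) (x : LaurentSeries R) (m : ℤ) :
    (laurentMap f x).coeff m = f (x.coeff m) := rfl

lemma laurentMap_single (f : R →+* S) (m : ℤ) (r : R) :
    laurentMap f (HahnSeries.single m r) = HahnSeries.single m (f r) :=
  HahnSeries.map_single (f.toMonoidWithZeroHom : ZeroHom R S)

lemma laurentMap_comp (f : R →+* S) (g : S →+* T) (x : LaurentSeries R) :
    laurentMap g (laurentMap f x) = laurentMap (g.comp f) x := by
  ext m
  rfl

lemma LG.map_apply (f : R →+* S) (g : LG n R) (i j : Fin n) :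
    (LG.map f g : LG n S) i j = laurentMap f (g i j) := rfl

lemma LG.map_map (f : R →+* S) (g : S →+* T) (x : LG n R) :
    LG.map g (LG.map f x) = LG.map (g.comp f) x := by
  apply Units.ext
  ext i j m
  rfl

lemma coord_map (f : R →+* S) (g : LG n R) (x : Bool × Fin n × Fin n × ℤ) :
    coord (LG.map f g) x = f (coord g x) := by
  obtain ⟨ε, i, j, m⟩ := x
  cases ε
  · change ((LG.map f g)⁻¹ i j).coeff m = f ((g⁻¹ i j).coeff m)
    rw [← map_inv]
    rfl
  · rfl

lemma laurentMap_ofPowerSeries (f : R →+* S) (x : PowerSeries R) :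
    laurentMap f (HahnSeries.ofPowerSeries ℤ R x) =
      HahnSeries.ofPowerSeries ℤ S (PowerSeries.map f x) := by
  ext m
  rw [laurentMap_coeff]
  by_cases hm : 0 ≤ m
  · obtain ⟨m, rfl⟩ := Int.eq_ofNat_of_zero_le hm
    have h1 := HahnSeries.ofPowerSeries_apply_coeff (Γ := ℤ) x m
    have h2 := HahnSeries.ofPowerSeries_apply_coeff (Γ := ℤ) (PowerSeries.map f x) m
    rw [PowerSeries.coeff_map] at h2
    exact (congrArg f h1).trans h2.symm
  · rw [HahnSeries.ofPowerSeries_apply, HahnSeries.embDomain_of_notMem_range,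
      HahnSeries.ofPowerSeries_apply, HahnSeries.embDomain_of_notMem_range, map_zero]
    all_goals
      rintro ⟨l, hl⟩
      apply hm
      rw [← hl]
      exact Int.natCast_nonneg l

end basic

section functor

variable {k : Type u} [Field k] {n : ℕ} {μ : Fin n → ℤ} {R S : Type u} [CommRing R] [Algebra k R]
  [CommRing S] [Algebra k S]

lemma aeval_coord_map (f : R →ₐ[k] S) (g : LG n R)
    (P : MvPolynomial (Bool × Fin n × Fin n × ℤ) k) :
    MvPolynomial.aeval (coord (LG.map f.toRingHom g)) P = f (MvPolynomial.aeval (coord g) P) := by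
  have h : coord (LG.map f.toRingHom g) = fun x => f (coord g x) := by
    ext x
    exact coord_map f.toRingHom g x
  rw [h]
  exact (MvPolynomial.comp_aeval_apply (coord g) f P).symm

lemma map_mem (f : R →ₐ[k] S) {g : LG n R} (hg : g ∈ cartanClosure k μ R) :
    LG.map f.toRingHom g ∈ cartanClosure k μ S := by
  intro P hP
  rw [aeval_coord_map, hg P hP, map_zero]

lemma mem_of_injective {K : Type u} [Field K] [Algebra k K] (f : R →ₐ[k] K)
    (hf : Function.Injective f) {g : LG n R} (hg : LG.map f.toRingHom g ∈ stratum μ K) :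
    g ∈ cartanClosure k μ R := by
  intro P hP
  apply hf
  rw [← aeval_coord_map, hP K _ hg, map_zero]

end functor

/-! ### Morphisms to a scheme which agree generically and at a point -/

section scheme

open TopologicalSpace

/-- Two morphisms from the spectrum of a domain to a scheme which agree generically and at a point
`O` agree at all generizations of `O`. -/
lemma eq_of_specializes {A : Type u} [CommRing A] [IsDomain A] {F L : Type u} [Field F] [Field L]
    (i : A →+* F) (hi : Function.Injective i) (j : A →+* L) {Y : Scheme.{u}}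
    (a b : Spec (.of A) ⟶ Y)
    (hab : Spec.map (CommRingCat.ofHom i) ≫ a = Spec.map (CommRingCat.ofHom i) ≫ b)
    (O : PrimeSpectrum A) (hO : a O = b O) (hj : RingHom.ker j ≤ O.asIdeal) :
    Spec.map (CommRingCat.ofHom j) ≫ a = Spec.map (CommRingCat.ofHom j) ≫ b := by
  obtain ⟨U, hU, hOU⟩ : ∃ U : Y.Opens, IsAffineOpen U ∧ a O ∈ U := by
    obtain ⟨_, ⟨U, hU, rfl⟩, hOU, -⟩ := Y.isBasis_affineOpens.exists_subset_of_mem_open
      (Set.mem_univ (a O)) isOpen_univ
    exact ⟨U, hU, hOU⟩
  have hUa : IsAffine U.toScheme := hU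
  let W : (Spec (.of A)).Opens := a ⁻¹ᵁ U ⊓ b ⁻¹ᵁ U
  have hOW : O ∈ W := ⟨hOU, by
    change b O ∈ U
    rw [← hO]
    exact hOU⟩
  -- the two restrictions to `W`
  have ha : Set.range (W.ι ≫ a) ⊆ Set.range U.ι := by
    rintro _ ⟨x, rfl⟩
    rw [Scheme.Opens.range_ι]
    exact x.2.1
  have hb : Set.range (W.ι ≫ b) ⊆ Set.range U.ι := by
    rintro _ ⟨x, rfl⟩
    rw [Scheme.Opens.range_ι]
    exact x.2.2
  let a' := IsOpenImmersion.lift U.ι (W.ι ≫ a) ha
  let b' := IsOpenImmersion.lift U.ι (W.ι ≫ b) hb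
  have ha' : a' ≫ U.ι = W.ι ≫ a := IsOpenImmersion.lift_fac _ _ _
  have hb' : b' ≫ U.ι = W.ι ≫ b := IsOpenImmersion.lift_fac _ _ _
  -- points of `W`
  have hmem : ∀ {M : Type u} [Field M] (f : A →+* M), RingHom.ker f ≤ O.asIdeal →
      Set.range (Spec.map (CommRingCat.ofHom f)) ⊆ Set.range W.ι := by
    intro M _ f hf
    rintro _ ⟨x, rfl⟩
    rw [Scheme.Opens.range_ι]
    have hsp : (Spec.map (CommRingCat.ofHom f)) x ⤳ O := by
      refine (PrimeSpectrum.le_iff_specializes _ _).1 ?_
      intro y hy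
      apply hf
      have h1 : f y ∈ PrimeSpectrum.asIdeal x := hy
      by_contra h2
      rw [RingHom.mem_ker] at h2
      exact x.isPrime.ne_top (Ideal.eq_top_of_isUnit_mem _ h1 (Ne.isUnit h2))
    exact hsp.mem_open W.isOpen hOW
  have hi0 : RingHom.ker i ≤ O.asIdeal := by
    rw [(RingHom.injective_iff_ker_eq_bot i).1 hi]
    exact bot_le
  let z := IsOpenImmersion.lift W.ι (Spec.map (CommRingCat.ofHom j)) (hmem j hj)
  have hz : z ≫ W.ι = Spec.map (CommRingCat.ofHom j) := IsOpenImmersion.lift_fac _ _ _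
  let g := IsOpenImmersion.lift W.ι (Spec.map (CommRingCat.ofHom i)) (hmem i hi0)
  have hg : g ≫ W.ι = Spec.map (CommRingCat.ofHom i) := IsOpenImmersion.lift_fac _ _ _
  have hdom : IsDominant g := by
    constructor
    have hd : DenseRange (Spec.map (CommRingCat.ofHom i)) := by
      refine (PrimeSpectrum.denseRange_comap_iff_ker_le_nilRadical i).2 ?_
      rw [(RingHom.injective_iff_ker_eq_bot i).1 hi]
      exact bot_le
    intro x
    rw [mem_closure_iff]
    intro V hV hx
    obtain ⟨_, ⟨x', hx', h1⟩, y, h2⟩ := hd.inter_open_nonempty _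
      (W.ι.isOpenEmbedding.isOpenMap V hV) ⟨W.ι x, x, hx, rfl⟩
    refine ⟨x', hx', y, ?_⟩
    apply W.ι.isOpenEmbedding.injective
    rw [h1, ← h2, ← hg]
    rfl
  have hred : IsReduced W.toScheme := by
    have : IsReduced (Spec (.of A)) := inferInstance
    infer_instance
  have hkey : a' = b' := by
    refine ext_of_isDominant (ι := g) ?_
    rw [← cancel_mono U.ι, Category.assoc, Category.assoc, ha', hb', ← Category.assoc,
      ← Category.assoc, hg, hab]
  have h : W.ι ≫ a = W.ι ≫ b := by rw [← ha', ← hb', hkey]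
  rw [← hz, Category.assoc, Category.assoc, h]

end scheme

/-! ### Matrices -/

section matrices

/-- The matrix `[[1, x], [0, 1]]`. -/
def upp {R : Type*} [CommRing R] (x : R) : GL (Fin 2) R where
  val := !![1, x; 0, 1]
  inv := !![1, -x; 0, 1]
  val_inv := by simp [Matrix.one_fin_two]
  inv_val := by simp [Matrix.one_fin_two]

/-- The matrix `[[1, 0], [x, 1]]`. -/
def low {R : Type*} [CommRing R] (x : R) : GL (Fin 2) R where
  val := !![1, 0; x, 1]
  inv := !![1, 0; -x, 1]
  val_inv := by simp [Matrix.one_fin_two]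
  inv_val := by simp [Matrix.one_fin_two]

/-- The matrix `[[0, v], [-v⁻¹, 0]]`. -/
def anti {R : Type*} [CommRing R] (v : Rˣ) : GL (Fin 2) R where
  val := !![0, v; -(v⁻¹ : Rˣ), 0]
  inv := !![0, -v; (v⁻¹ : Rˣ), 0]
  val_inv := by simp [Matrix.one_fin_two]
  inv_val := by simp [Matrix.one_fin_two]

/-- The matrix `diag (v, 1)`. -/
def dia {R : Type*} [CommRing R] (v : Rˣ) : GL (Fin 2) R where
  val := !![(v : R), 0; 0, 1]
  inv := !![((v⁻¹ : Rˣ) : R), 0; 0, 1]
  val_inv := by simp [Matrix.one_fin_two]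
  inv_val := by simp [Matrix.one_fin_two]

lemma map_upp {R S : Type*} [CommRing R] [CommRing S] (f : R →+* S) (x : LaurentSeries R) :
    LG.map f (upp x) = upp (laurentMap f x) := by
  apply Units.ext
  ext1 i j
  rw [LG.map_apply]
  fin_cases i <;> fin_cases j <;> simp [upp]

/-- `[[1, v / t], [0, 1]]` is in the stratum of `(1, -1)` for units `v` of `K[[t]]`. -/
lemma upp_mem_stratum {K : Type*} [Field K] (v : (PowerSeries K)ˣ) :
    upp (HahnSeries.single (-1) 1 * HahnSeries.ofPowerSeries ℤ K v) ∈
      stratum ![(1 : ℤ), -1] K := by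
  refine ⟨low (PowerSeries.X * (v⁻¹).val) * anti v,
    low (PowerSeries.X * (v⁻¹).val), ?_⟩
  obtain ⟨T, hT⟩ : ∃ T : LaurentSeries K, T = HahnSeries.single 1 1 := ⟨_, rfl⟩
  obtain ⟨T', hT'⟩ : ∃ T' : LaurentSeries K, T' = HahnSeries.single (-1) 1 := ⟨_, rfl⟩
  obtain ⟨V, hV⟩ : ∃ V, V = HahnSeries.ofPowerSeries ℤ K v := ⟨_, rfl⟩
  obtain ⟨V', hV'⟩ : ∃ V', V' = HahnSeries.ofPowerSeries ℤ K (v⁻¹).val := ⟨_, rfl⟩
  have h1 : T * T' = 1 := by
    rw [hT, hT', HahnSeries.single_mul_single]
    simp
  have h2 : V * V' = 1 := by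
    rw [hV, hV', ← map_mul, Units.mul_inv, map_one]
  have hX : HahnSeries.ofPowerSeries ℤ K PowerSeries.X = T := by
    rw [HahnSeries.ofPowerSeries_X, hT]
  have e1 : (incl 2 K (low (PowerSeries.X * (v⁻¹).val)) :
      Matrix (Fin 2) (Fin 2) (LaurentSeries K)) = !![1, 0; T * V', 1] := by
    ext1 i j
    change HahnSeries.ofPowerSeries ℤ K ((low (PowerSeries.X * (v⁻¹).val) :
      Matrix (Fin 2) (Fin 2) (PowerSeries K)) i j) = _
    fin_cases i <;> fin_cases j <;> simp [low, hX, hV']
  have e2 : (incl 2 K (anti v) :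
      Matrix (Fin 2) (Fin 2) (LaurentSeries K)) = !![0, V; -V', 0] := by
    ext1 i j
    change HahnSeries.ofPowerSeries ℤ K ((anti v :
      Matrix (Fin 2) (Fin 2) (PowerSeries K)) i j) = _
    fin_cases i <;> fin_cases j <;> simp [anti, hV, hV']
  have e3 : (tpow ![(1 : ℤ), -1] K :
      Matrix (Fin 2) (Fin 2) (LaurentSeries K)) = !![T, 0; 0, T'] := by
    ext1 i j
    fin_cases i <;> fin_cases j <;> simp [tpow, hT, hT']
  apply Units.ext
  rw [← hT', ← hV, map_mul, Units.val_mul, Units.val_mul, Units.val_mul, e1, e2, e3]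
  simp only [upp, Matrix.mul_fin_two]
  ext1 i j
  fin_cases i <;> fin_cases j
  · simp only [Fin.zero_eta, Fin.isValue, Matrix.of_apply, Matrix.cons_val', Matrix.cons_val_zero,
      Matrix.cons_val_fin_one]
    linear_combination (-(V * V')) * h1 - h2
  · simp only [Fin.zero_eta, Fin.isValue, Fin.mk_one, Matrix.of_apply, Matrix.cons_val',
      Matrix.cons_val_one, Matrix.cons_val_zero, Matrix.cons_val_fin_one]
    ring
  · simp only [Fin.zero_eta, Fin.isValue, Fin.mk_one, Matrix.of_apply, Matrix.cons_val',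
      Matrix.cons_val_one, Matrix.cons_val_zero, Matrix.cons_val_fin_one]
    linear_combination (-(T * V')) * (V * V' * h1 + h2)
  · simp only [Fin.isValue, Fin.mk_one, Matrix.of_apply, Matrix.cons_val',
      Matrix.cons_val_one, Matrix.cons_val_fin_one]
    linear_combination (-(V * V')) * h1 - h2

end matrices

/-! ### The main argument -/

section main

open Polynomial

variable {k : Type u} [Field k]

/-- The Laurent series `a / t + b`. -/
def lin {R : Type*} [CommRing R] (a b : R) : LaurentSeries R :=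
  HahnSeries.single (-1) a + HahnSeries.single 0 b

lemma laurentMap_lin {R S : Type*} [CommRing R] [CommRing S] (f : R →+* S) (a b : R) :
    laurentMap f (lin a b) = lin (f a) (f b) := by
  rw [lin, map_add, laurentMap_single, laurentMap_single, lin]

/-- The unit `a + b t` of the ring of power series, for `a ≠ 0`. -/
def linUnit {K : Type*} [Field K] (a b : K) (ha : a ≠ 0) : (PowerSeries K)ˣ :=
  IsUnit.unit (a := PowerSeries.C a + PowerSeries.C b * PowerSeries.X) (by
    rw [PowerSeries.isUnit_iff_constantCoeff]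
    simpa using ha)

lemma lin_eq {K : Type*} [Field K] (a b : K) (ha : a ≠ 0) :
    lin a b = HahnSeries.single (-1) 1 * HahnSeries.ofPowerSeries ℤ K (linUnit a b ha) := by
  rw [linUnit, IsUnit.unit_spec, map_add, map_mul, HahnSeries.ofPowerSeries_C,
    HahnSeries.ofPowerSeries_C, HahnSeries.ofPowerSeries_X, HahnSeries.C_apply, HahnSeries.C_apply,
    HahnSeries.single_mul_single, mul_add, HahnSeries.single_mul_single,
    HahnSeries.single_mul_single, lin]
  simp

/-- If `s` is invertible, `[[1, s / t + u], [0, 1]]` is in the orbit of `[[1, s / t], [0, 1]]`. -/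
lemma orbit {K : Type*} [Field K] (s u : K) (hs : s ≠ 0) :
    ∃ a ∈ K1 2 K, ∃ b ∈ K1 2 K, upp (lin s u) = a * upp (lin s 0) * b := by
  let v : (PowerSeries K)ˣ := linUnit 1 (u / s) one_ne_zero
  have hv : (dia v : GL (Fin 2) (PowerSeries K)) ∈
      (Matrix.GeneralLinearGroup.map (n := Fin 2) (PowerSeries.constantCoeff (R := K))).ker := by
    rw [MonoidHom.mem_ker]
    apply Units.ext
    ext1 i j
    change PowerSeries.constantCoeff ((dia v : Matrix (Fin 2) (Fin 2) (PowerSeries K)) i j) = _
    fin_cases i <;> fin_cases j <;> simp [dia, v, linUnit]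
  have hd : incl 2 K (dia v) ∈ K1 2 K := Subgroup.mem_map_of_mem _ hv
  refine ⟨incl 2 K (dia v), hd, (incl 2 K (dia v))⁻¹, inv_mem hd, ?_⟩
  rw [eq_mul_inv_iff_mul_eq]
  have e : (incl 2 K (dia v) : Matrix (Fin 2) (Fin 2) (LaurentSeries K)) =
      !![HahnSeries.ofPowerSeries ℤ K v, 0; 0, 1] := by
    ext1 i j
    change HahnSeries.ofPowerSeries ℤ K ((dia v :
      Matrix (Fin 2) (Fin 2) (PowerSeries K)) i j) = _
    fin_cases i <;> fin_cases j <;> simp [dia]
  have hmul : HahnSeries.ofPowerSeries ℤ K v * lin s 0 = lin s u := by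
    simp only [v]
    rw [linUnit, IsUnit.unit_spec, map_add, map_mul, HahnSeries.ofPowerSeries_C,
      HahnSeries.ofPowerSeries_C, HahnSeries.ofPowerSeries_X, HahnSeries.C_apply,
      HahnSeries.C_apply, HahnSeries.single_mul_single, lin, lin, map_zero, add_zero, add_mul,
      HahnSeries.single_mul_single, HahnSeries.single_mul_single]
    congr 1
    · simp
    · simp [div_mul_cancel₀ _ hs]
  apply Units.ext
  rw [Units.val_mul, Units.val_mul, e, ← hmul]
  simp only [upp, Matrix.mul_fin_two]
  ext1 i j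
  fin_cases i <;> fin_cases j <;> simp

/-- The polynomial ring `k[u][s]`. -/
abbrev A (k : Type u) [Field k] : Type u := k[X][X]

/-- Elements of `C^{≤ μ}(k[u, s])`. -/
lemma mem_closure (b : k[X]) :
    (upp (lin (X : A k) (C b)) : LG 2 (A k)) ∈ cartanClosure k ![(1 : ℤ), -1] (A k) := by
  let K := FractionRing (A k)
  let f : A k →ₐ[k] K := IsScalarTower.toAlgHom k (A k) K
  have hf : Function.Injective f := IsFractionRing.injective (A k) K
  refine mem_of_injective f hf ?_
  have hX : f X ≠ 0 := by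
    rw [Ne, map_eq_zero_iff f hf]
    exact X_ne_zero
  rw [map_upp, laurentMap_lin]
  change upp (lin (f X) (f (C b))) ∈ _
  rw [lin_eq _ _ hX]
  exact upp_mem_stratum _

/-- The conclusion for the two points after a base change `f` of `k[u, s]`. -/
lemma q_eq {Y : Scheme.{u}} (p : Y ⟶ Spec (.of k))
    (q : ∀ (R : Type u) [CommRing R] [Algebra k R], cartanClosure k ![(1 : ℤ), -1] R → Pt p R)
    (hq : IsSheafQuotient ![(1 : ℤ), -1] p q) {R : Type u} [CommRing R] [Algebra k R]
    (f : A k →ₐ[k] R) (g h : cartanClosure k ![(1 : ℤ), -1] (A k)) :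
    q R ⟨_, map_mem f g.2⟩ = q R ⟨_, map_mem f h.2⟩ ↔
      Spec.map (CommRingCat.ofHom f.toRingHom) ≫ (q (A k) g).1 =
        Spec.map (CommRingCat.ofHom f.toRingHom) ≫ (q (A k) h).1 := by
  rw [hq.natural (A k) R f g ⟨_, map_mem f g.2⟩ rfl, hq.natural (A k) R f h ⟨_, map_mem f h.2⟩ rfl]
  exact Subtype.ext_iff

lemma coeff_K1 {R : Type u} [CommRing R] {g : LG 2 R} (hg : g ∈ K1 2 R) :
    (g 0 1).coeff 0 = 0 := by
  obtain ⟨a, ha, rfl⟩ := hg
  change (HahnSeries.ofPowerSeries ℤ R (a 0 1)).coeff ((0 : ℕ) : ℤ) = 0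
  rw [HahnSeries.ofPowerSeries_apply_coeff]
  have h : Matrix.GeneralLinearGroup.map (n := Fin 2) (PowerSeries.constantCoeff (R := R)) a = 1 :=
    ha
  have h1 := congrArg (fun b : GL (Fin 2) R => b 0 1) h
  simpa using h1

theorem no_quotient {Y : Scheme.{u}} (p : Y ⟶ Spec (.of k))
    (q : ∀ (R : Type u) [CommRing R] [Algebra k R], cartanClosure k ![(1 : ℤ), -1] R → Pt p R)
    (hq : IsSheafQuotient ![(1 : ℤ), -1] p q) : False := by
  let g : cartanClosure k ![(1 : ℤ), -1] (A k) := ⟨_, mem_closure 0⟩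
  let h : cartanClosure k ![(1 : ℤ), -1] (A k) := ⟨_, mem_closure X⟩
  -- base change of the two points
  have hgf : ∀ {R : Type u} [CommRing R] [Algebra k R] (f : A k →ₐ[k] R),
      LG.map f.toRingHom g.1 = upp (lin (f X) 0) := by
    intro R _ _ f
    change LG.map f.toRingHom (upp (lin X (C 0))) = _
    rw [map_upp, laurentMap_lin]
    simp
  have hhf : ∀ {R : Type u} [CommRing R] [Algebra k R] (f : A k →ₐ[k] R),
      LG.map f.toRingHom h.1 = upp (lin (f X) (f (C X))) := by
    intro R _ _ f
    change LG.map f.toRingHom (upp (lin X (C X))) = _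
    rw [map_upp, laurentMap_lin]
    rfl
  -- the generic point
  let F := FractionRing (A k)
  let i : A k →ₐ[k] F := IsScalarTower.toAlgHom k (A k) F
  have hi : Function.Injective i := IsFractionRing.injective (A k) F
  -- the generic point of the line `s = 0`
  let L := FractionRing k[X]
  let j : A k →ₐ[k] L :=
    (IsScalarTower.toAlgHom k k[X] L).comp ((Polynomial.aeval (0 : k[X])).restrictScalars k)
  -- the origin
  let e : A k →ₐ[k] k :=
    (Polynomial.aeval (0 : k)).comp ((Polynomial.aeval (0 : k[X])).restrictScalars k)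
  have heX : e X = 0 := by simp [e]
  have heC : e (C X) = 0 := by simp [e]
  have hjX : j X = 0 := by simp [j]
  have hjC : j (C X) = algebraMap k[X] L X := by simp [j]
  -- agreement at the generic point
  have h1 : Spec.map (CommRingCat.ofHom i.toRingHom) ≫ (q (A k) g).1 =
      Spec.map (CommRingCat.ofHom i.toRingHom) ≫ (q (A k) h).1 := by
    rw [← q_eq p q hq i g h, hq.eq_iff]
    have hX : i X ≠ 0 := by
      rw [Ne, map_eq_zero_iff i hi]
      exact X_ne_zero
    obtain ⟨a, ha, b, hb, hab⟩ := orbit (i X) (i (C X)) hX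
    refine ⟨F, inferInstance, inferInstance, AlgHom.id k F,
      RingHom.FaithfullyFlat.of_bijective Function.bijective_id, a, ha, b, hb, ?_⟩
    have hid : ∀ x : LG 2 F, LG.map (AlgHom.id k F).toRingHom x = x := by
      intro x
      apply Units.ext
      ext i j m
      rfl
    rw [hid, hid]
    change LG.map i.toRingHom h.1 = a * LG.map i.toRingHom g.1 * b
    rw [hgf, hhf, hab]
  -- agreement at the origin
  have h2 : Spec.map (CommRingCat.ofHom e.toRingHom) ≫ (q (A k) g).1 =
      Spec.map (CommRingCat.ofHom e.toRingHom) ≫ (q (A k) h).1 := by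
    rw [← q_eq p q hq e g h]
    congr 1
    apply Subtype.ext
    change LG.map e.toRingHom g.1 = LG.map e.toRingHom h.1
    rw [hgf, hhf, heC]
  -- agreement at the generic point of the line
  have h3 : Spec.map (CommRingCat.ofHom j.toRingHom) ≫ (q (A k) g).1 =
      Spec.map (CommRingCat.ofHom j.toRingHom) ≫ (q (A k) h).1 := by
    refine eq_of_specializes i.toRingHom hi j.toRingHom _ _ h1
      ((Spec.map (CommRingCat.ofHom e.toRingHom)) (⊥ : PrimeSpectrum k)) ?_ ?_
    · rw [← Scheme.Hom.comp_apply, ← Scheme.Hom.comp_apply, h2]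
    · intro x hx
      change e x ∈ (⊥ : PrimeSpectrum k).asIdeal
      have hx' : j x = 0 := hx
      have h4 : algebraMap k[X] L (Polynomial.aeval (0 : k[X]) x) = 0 := hx'
      have h5 : Polynomial.aeval (0 : k[X]) x = 0 :=
        (map_eq_zero_iff _ (IsFractionRing.injective k[X] L)).1 h4
      change Polynomial.aeval (0 : k) (Polynomial.aeval (0 : k[X]) x) ∈ _
      rw [h5, map_zero]
      exact Ideal.zero_mem _
  rw [← q_eq p q hq j g h, hq.eq_iff] at h3
  obtain ⟨S, _, _, f, hf, a, ha, b, hb, hab⟩ := h3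
  replace hab : LG.map f.toRingHom (LG.map j.toRingHom h.1) =
    a * LG.map f.toRingHom (LG.map j.toRingHom g.1) * b := hab
  have h5 : LG.map f.toRingHom (upp (lin (j X) (j (C X)))) ∈ K1 2 S := by
    rw [← hhf j]
    rw [hab, hgf j, hjX]
    refine mul_mem (mul_mem ha ?_) hb
    have : (upp (lin (0 : L) 0) : LG 2 L) = 1 := by
      apply Units.ext
      simp [upp, lin, Matrix.one_fin_two]
    rw [this, map_one]
    exact one_mem _
  have h6 := coeff_K1 h5
  rw [map_upp, laurentMap_lin] at h6
  have h7 : f (j (C X)) = 0 := by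
    simpa [upp, lin] using h6
  rw [hjC, map_eq_zero_iff f hf.injective,
    map_eq_zero_iff _ (IsFractionRing.injective k[X] L)] at h7
  exact X_ne_zero h7

end main

/-- **The conjecture is false for `GL₂` over every field.**  The fpqc sheaf quotient
`K₁ \ C^{≤ μ} / K₁` for `G = GL₂` and the dominant cocharacter `μ = (1, -1)` is not representable by a
scheme over `k`. -/
theorem result (k : Type u) [Field k] :
    ¬ ∃ (Y : Scheme.{u}) (p : Y ⟶ Spec (.of k))
      (q : ∀ (R : Type u) [CommRing R] [Algebra k R], cartanClosure k ![(1 : ℤ), -1] R → Pt p R),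
      IsSheafQuotient ![(1 : ℤ), -1] p q := by
  rintro ⟨Y, p, q, hq⟩
  exact no_quotient p q hq

end Pool.Agent.Results.MP_a35d21_ag.NotRepresentable
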